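import Mathlib
import Pool.Agent.Results.MP_ae5711_al.AmenableHJI
import Pool.Agent.Y51.HJ.Param

set_option autoImplicit false

/-! There are continuum many pairwise nonisomorphic finitely generated amenable hereditarily
just-infinite groups that are not elementary amenable. -/

namespace Pool.Agent.Results.MP_ae5711_al.ContinuumMany

open Pool.Agent.Results.MP_ae5711_al.AmenableHJI

/-- the properties of each of the groups -/
theorem props (ν : ℕ → ℕ) (hν : ∀ k : ℕ, HJI.FoE HJI.L0 ν (1 / ((k : ℝ) + 1))) :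
    Group.FG (HJI.GG HJI.L0 (HJI.Dn ν)) ∧ Amenable (HJI.GG HJI.L0 (HJI.Dn ν)) ∧
      HereditarilyJustInfinite (HJI.GG HJI.L0 (HJI.Dn ν)) ∧
      ¬ ElementaryAmenable (HJI.GG HJI.L0 (HJI.Dn ν)) := by
  have hD : ∀ M, (HJI.Dn ν M).Ok := fun M => HJI.Dh_ok (ν M)
  have hji : ∀ H : Subgroup (HJI.GG HJI.L0 (HJI.Dn ν)), H.FiniteIndex → JustInfinite H := by
    intro H hH
    refine ⟨?_, HJI.hji_main hD H hH⟩
    have hinf := HJI.GG_infinite hD
    by_contra hfin
    rw [not_infinite_iff_finite] at hfin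
    have h1 : Nat.card H ≠ 0 := Nat.card_pos.ne'
    have h2 := H.card_mul_index
    have h3 : Nat.card (HJI.GG HJI.L0 (HJI.Dn ν)) ≠ 0 := by
      rw [← h2]
      exact Nat.mul_ne_zero h1 hH.index_ne_zero
    exact (not_finite_iff_infinite.mpr hinf) (Nat.finite_of_card_ne_zero h3)
  exact ⟨HJI.GG_fg, HJI.Fol.mean_of_fol (HJI.fol_GG ν hν), ⟨HJI.GG_rf hD, hji⟩,
    not_ea HJI.GG_fg hji (HJI.GG_nonab hD)⟩

/-- There is a family of groups `G r`, indexed by the real numbers `r` and pairwise nonisomorphic,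
such that each `G r` is finitely generated, amenable, hereditarily just-infinite and not elementary
amenable. -/
theorem result : ∃ (G : ℝ → Type) (_ : ∀ r, Group (G r)),
    (∀ r, Group.FG (G r) ∧ Amenable (G r) ∧ HereditarilyJustInfinite (G r) ∧
      ¬ ElementaryAmenable (G r)) ∧
    ∀ r s, Nonempty (G r ≃* G s) → r = s := by
  obtain ⟨φ, hφ⟩ := Pool.Agent.Y51.HJ.family
  exact ⟨fun r => HJI.GG HJI.L0 (HJI.Dn (Pool.Agent.Y51.HJ.nu (φ r))), fun r => inferInstance,
    fun r => props _ (Pool.Agent.Y51.HJ.nu_FoE (φ r)), hφ⟩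

end Pool.Agent.Results.MP_ae5711_al.ContinuumMany
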